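import Pool.Agent.H30R2.BC.LV2
import Pool.Agent.H537R6.Asm2
import Pool.Agent.H537R6.U_SCL
import Pool.Agent.H537R6.U_RAD
import Pool.Agent.H537R6.U_MAT
import Pool.Agent.H537R6.U_VDM
import Pool.Agent.H537R6.U_PAD
import Pool.Agent.H537R6.U_LOG
import Pool.Agent.H537R6.U_NU2
import Pool.Agent.TH835.Tau.Cancel2

set_option autoImplicit false

/-! Trees without divisions which decide the solvability of systems of polynomial equations have
large cancellations in their additions. -/

namespace Pool.Agent.TH835.BSS

open Finset Polynomial Pool.Agent.H30R2 Pool.Agent.H30R2.BC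

variable {ι : Type}

/-- The instruction is an addition or a subtraction one of whose operands `u` is so much larger than
the result `v` that `|u| > 2 ^ a |v| + 2 ^ b`. -/
def OpCancels (a b : ℕ) (m : ℕ → ℚ) : Op ι → Prop
  | .add i j => 2 ^ a * |m i + m j| + 2 ^ b < max |m i| |m j|
  | .sub i j => 2 ^ a * |m i - m j| + 2 ^ b < max |m i| |m j|
  | _ => False

/-- Some addition or subtraction in the run on the input `x` has a large cancellation, if the
registers contain `m`. -/
def CancelsFrom (a b : ℕ) (x : ι → ℚ) : BC.Tree ι → (ℕ → ℚ) → Prop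
  | .answer _, _ => False
  | .comp r o t, m => OpCancels a b m o ∨ CancelsFrom a b x t (Function.update m r (o.val x m))
  | .test c yes no, m => if m c = 0 then CancelsFrom a b x yes m else CancelsFrom a b x no m

/-- Some addition or subtraction in the run on the input `x` has a large cancellation. -/
def Cancels (a b : ℕ) (t : BC.Tree ι) (x : ι → ℚ) : Prop := CancelsFrom a b x t 0

/-- The number of instructions and tests in the run on `x`, if the registers contain `m`. -/
def stepsFrom (x : ι → ℚ) : BC.Tree ι → (ℕ → ℚ) → ℕ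
  | .answer _, _ => 0
  | .comp r o t, m => 1 + stepsFrom x t (Function.update m r (o.val x m))
  | .test c yes no, m => 1 + if m c = 0 then stepsFrom x yes m else stepsFrom x no m

/-- The number of instructions and tests in the run on the input `x`. -/
def steps (t : BC.Tree ι) (x : ι → ℚ) : ℕ := stepsFrom x t 0

open Classical in
/-- the number of steps of the generic run -/
noncomputable def gsteps (x : ι → ℤ[X]) : BC.Tree ι → (ℕ → ℤ[X]) → ℕ
  | .answer _, _ => 0
  | .comp r o t, M => 1 + gsteps x t (Function.update M r (o.pval x M))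
  | .test c yes no, M => 1 + if M c = 0 then gsteps x yes M else gsteps x no M

theorem generic_steps (x : ι → ℤ[X]) (t : BC.Tree ι) : t.DivFree → ∀ M : ℕ → ℤ[X],
    ∃ B : Finset ℤ, ∀ z ∉ B, t.run (ev z x) (ev z M) = t.grun x M ∧
      stepsFrom (ev z x) t (ev z M) = gsteps x t M := by
  classical
  induction t with
  | answer b => exact fun _ M => ⟨∅, fun z _ => ⟨rfl, rfl⟩⟩
  | comp r o t ih =>
    rintro ⟨ho, ht⟩ M
    obtain ⟨B, hB⟩ := ih ht (Function.update M r (o.pval x M))
    refine ⟨B, fun z hz => ?_⟩
    have h := hB z hz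
    rw [ev_update, ← op_eval x M z o ho] at h
    refine ⟨h.1, ?_⟩
    show 1 + _ = 1 + _
    rw [h.2]
  | test a yes no ihy ihn =>
    rintro ⟨hy, hn⟩ M
    obtain ⟨By, hBy⟩ := ihy hy M
    obtain ⟨Bn, hBn⟩ := ihn hn M
    refine ⟨By ∪ Bn ∪ (M a).roots.toFinset, fun z hz => ?_⟩
    rw [Finset.mem_union, Finset.mem_union, not_or, not_or] at hz
    obtain ⟨⟨h1, h2⟩, h3⟩ := hz
    by_cases h : M a = 0
    · have h4 : ev z M a = 0 := by
        unfold ev
        rw [h, eval_zero, Int.cast_zero]
      have h5 := hBy z h1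
      constructor
      · rw [run_pos h4, h5.1]
        exact (if_pos h).symm
      · show 1 + (if ev z M a = 0 then _ else _) = 1 + (if M a = 0 then _ else _)
        rw [if_pos h4, if_pos h, h5.2]
    · have h4 : ev z M a ≠ 0 := by
        unfold ev
        intro h0
        apply h3
        rw [Multiset.mem_toFinset, mem_roots h]
        exact_mod_cast h0
      have h5 := hBn z h2
      constructor
      · rw [run_neg h4, h5.1]
        exact (if_neg h).symm
      · show 1 + (if ev z M a = 0 then _ else _) = 1 + (if M a = 0 then _ else _)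
        rw [if_neg h4, if_neg h, h5.2]

/-- the polynomial `g k` is computed from the earlier ones without large cancellations on `S` -/
def Valid (a b : ℕ) (g : ℕ → ℤ[X]) (S : Finset ℤ) (k : ℕ) : Prop :=
  g k = X ∨ (∃ c : ℤ, g k = C c) ∨ (∃ i < k, ∃ j < k, g k = g i * g j) ∨
    (∃ i < k, ∃ j < k, (g k = g i + g j ∨ g k = g i - g j) ∧
      ∀ x ∈ S, |(g i).eval x| ≤ 2 ^ a * |(g k).eval x| + 2 ^ b ∧
        |(g j).eval x| ≤ 2 ^ a * |(g k).eval x| + 2 ^ b) ∨
    (∃ i < k, ∃ s : ℤ[X], 1 ≤ s.natDegree ∧ s.support.card ≤ 1 ∧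
      (∀ l, |s.coeff l| ≤ 2 ^ b) ∧ g k = s.comp (g i))

theorem Valid.mono {a b : ℕ} {g : ℕ → ℤ[X]} {S S' : Finset ℤ} {k : ℕ} (h : Valid a b g S k)
    (hS : S' ⊆ S) : Valid a b g S' k := by
  rcases h with h | h | h | h | h
  · exact Or.inl h
  · exact Or.inr (Or.inl h)
  · exact Or.inr (Or.inr (Or.inl h))
  · obtain ⟨i, hi, j, hj, h1, h2⟩ := h
    exact Or.inr (Or.inr (Or.inr (Or.inl ⟨i, hi, j, hj, h1, fun x hx => h2 x (hS hx)⟩)))
  · exact Or.inr (Or.inr (Or.inr (Or.inr h)))

theorem Valid.congr {a b : ℕ} {g g' : ℕ → ℤ[X]} {S : Finset ℤ} {k : ℕ} (h : Valid a b g S k)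
    (hg : ∀ i ≤ k, g' i = g i) : Valid a b g' S k := by
  unfold Valid at *
  rw [hg k le_rfl]
  rcases h with h | h | h | h | h
  · exact Or.inl h
  · exact Or.inr (Or.inl h)
  · obtain ⟨i, hi, j, hj, h1⟩ := h
    exact Or.inr (Or.inr (Or.inl ⟨i, hi, j, hj, by rw [hg i hi.le, hg j hj.le]; exact h1⟩))
  · obtain ⟨i, hi, j, hj, h1, h2⟩ := h
    refine Or.inr (Or.inr (Or.inr (Or.inl ⟨i, hi, j, hj, ?_, ?_⟩)))
    · rw [hg i hi.le, hg j hj.le]; exact h1
    · rw [hg i hi.le, hg j hj.le]; exact h2
  · obtain ⟨i, hi, s, h1, h2, h3, h4⟩ := h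
    exact Or.inr (Or.inr (Or.inr (Or.inr ⟨i, hi, s, h1, h2, h3, by rw [hg i hi.le]; exact h4⟩)))

theorem monomial_facts (b : ℕ) (c : ℤ) (hc : c = 1 ∨ c = -1) :
    1 ≤ (C c * X : ℤ[X]).natDegree ∧ (C c * X : ℤ[X]).support.card ≤ 1 ∧
      (∀ l, |(C c * X : ℤ[X]).coeff l| ≤ 2 ^ b) := by
  have hc0 : c ≠ 0 := by rcases hc with h | h <;> rw [h] <;> norm_num
  have hc1 : |c| = 1 := by rcases hc with h | h <;> rw [h] <;> norm_num
  have h2 : (1 : ℤ) ≤ 2 ^ b := one_le_pow₀ (by norm_num)
  refine ⟨?_, ?_, ?_⟩
  · rw [natDegree_C_mul_X _ hc0]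
  · have := card_support_C_mul_X_pow_le_one (c := c) (n := 1)
    rwa [pow_one] at this
  · intro l
    rw [coeff_C_mul, coeff_X]
    split_ifs
    · rw [mul_one, hc1]; exact h2
    · rw [mul_zero, abs_zero]; positivity

/-- The main lemma. -/
theorem few_noncancel (a b T Bd : ℕ)
    (hBd : ∀ (g : ℕ → ℤ[X]) (S : Finset ℤ), (∀ k ≤ T + 2, Valid a b g S k) → g (T + 2) ≠ 0 →
      (∀ x ∈ S, (g (T + 2)).eval x = 0) → S.card ≤ Bd)
    (x : ι → ℤ[X]) (hx : ∀ i, (∃ c : ℤ, x i = C c) ∨ x i = -X)
    (t : BC.Tree ι) : t.DivFree → ∀ (M g : ℕ → ℤ[X]) (n : ℕ) (S : Finset ℤ), 2 ≤ n → g 1 = X →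
      (∀ k < n, Valid a b g S k) → (∀ c, ∃ k < n, M c = g k) → n + gsteps x t M ≤ T + 2 →
      t.grun x M = false →
      (∀ z ∈ S, t.run (ev z x) (ev z M) = true ∧ ¬ CancelsFrom a b (ev z x) t (ev z M)) →
      S.card ≤ Bd * gsteps x t M := by
  classical
  induction t with
  | answer b =>
    intro _ M g n S _ _ _ _ _ hg hS
    have h1 : S = ∅ := by
      rw [Finset.eq_empty_iff_forall_notMem]
      intro z hz
      have h2 : b = true := (hS z hz).1
      have h3 : b = false := hg
      rw [h2] at h3
      exact Bool.noConfusion h3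
    rw [h1, Finset.card_empty]
    exact Nat.zero_le _
  | comp r o t ih =>
    rintro ⟨ho, ht⟩ M g n S hn2 hg1 hval hreg hsteps hg hS
    have hgs : gsteps x (BC.Tree.comp r o t) M =
      1 + gsteps x t (Function.update M r (o.pval x M)) := rfl
    have hupd : ∀ i, i < n → Function.update g n (o.pval x M) i = g i := by
      intro i hi
      rw [Function.update_of_ne (by omega)]
    have h1 := ih ht (Function.update M r (o.pval x M)) (Function.update g n (o.pval x M)) (n + 1) S
      (by omega) (by rw [hupd 1 (by omega)]; exact hg1)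
      (by
        intro k hk
        rcases Nat.lt_succ_iff_lt_or_eq.mp hk with hk | hk
        · exact (hval k hk).congr (fun i hi => hupd i (by omega))
        · subst hk
          unfold Valid
          rw [Function.update_self]
          have hS' : ∀ z ∈ S, ¬ OpCancels a b (ev z M) o := fun z hz h => (hS z hz).2 (Or.inl h)
          cases o with
          | inp i =>
            rcases hx i with ⟨c, hc⟩ | hc
            · exact Or.inr (Or.inl ⟨c, hc⟩)
            · refine Or.inr (Or.inr (Or.inr (Or.inr ⟨1, by omega, C (-1) * X, ?_⟩)))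
              obtain ⟨h1, h2, h3⟩ := monomial_facts b (-1) (Or.inr rfl)
              refine ⟨h1, h2, h3, ?_⟩
              show x i = _
              rw [hupd 1 (by omega), hg1, hc, mul_comp, C_comp, X_comp]
              simp
          | const c => exact Or.inr (Or.inl ⟨c, rfl⟩)
          | add i j =>
            obtain ⟨ki, hki, hi⟩ := hreg i
            obtain ⟨kj, hkj, hj⟩ := hreg j
            refine Or.inr (Or.inr (Or.inr (Or.inl ⟨ki, hki, kj, hkj, Or.inl ?_, ?_⟩)))
            · rw [hupd ki hki, hupd kj hkj, ← hi, ← hj]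
              rfl
            · intro z hz
              have h2 := hS' z hz
              simp only [OpCancels, not_lt, ev] at h2
              rw [hupd ki hki, hupd kj hkj, ← hi, ← hj]
              show _ ≤ 2 ^ a * |(M i + M j).eval z| + 2 ^ b ∧
                _ ≤ 2 ^ a * |(M i + M j).eval z| + 2 ^ b
              rw [eval_add]
              have h3 := max_le_iff.mp h2
              exact ⟨by exact_mod_cast h3.1, by exact_mod_cast h3.2⟩
          | sub i j =>
            obtain ⟨ki, hki, hi⟩ := hreg i
            obtain ⟨kj, hkj, hj⟩ := hreg j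
            refine Or.inr (Or.inr (Or.inr (Or.inl ⟨ki, hki, kj, hkj, Or.inr ?_, ?_⟩)))
            · rw [hupd ki hki, hupd kj hkj, ← hi, ← hj]
              rfl
            · intro z hz
              have h2 := hS' z hz
              simp only [OpCancels, not_lt, ev] at h2
              rw [hupd ki hki, hupd kj hkj, ← hi, ← hj]
              show _ ≤ 2 ^ a * |(M i - M j).eval z| + 2 ^ b ∧
                _ ≤ 2 ^ a * |(M i - M j).eval z| + 2 ^ b
              rw [eval_sub]
              have h3 := max_le_iff.mp h2
              exact ⟨by exact_mod_cast h3.1, by exact_mod_cast h3.2⟩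
          | mul i j =>
            obtain ⟨ki, hki, hi⟩ := hreg i
            obtain ⟨kj, hkj, hj⟩ := hreg j
            refine Or.inr (Or.inr (Or.inl ⟨ki, hki, kj, hkj, ?_⟩))
            rw [hupd ki hki, hupd kj hkj, ← hi, ← hj]
            rfl
          | div i j => exact absurd rfl (ho i j))
      (by
        intro c
        by_cases hc : c = r
        · subst hc
          exact ⟨n, by omega, by rw [Function.update_self, Function.update_self]⟩
        · obtain ⟨k, hk, h2⟩ := hreg c
          exact ⟨k, by omega, by rw [Function.update_of_ne hc, hupd k hk, h2]⟩)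
      (by omega) hg
      (by
        intro z hz
        obtain ⟨h2, h3⟩ := hS z hz
        rw [ev_update, ← op_eval x M z o ho]
        exact ⟨h2, fun h4 => h3 (Or.inr h4)⟩)
    rw [hgs]
    exact h1.trans (Nat.mul_le_mul_left _ (by omega))
  | test c yes no ihy ihn =>
    rintro ⟨hy, hn⟩ M g n S hn2 hg1 hval hreg hsteps hg hS
    have hgt : gsteps x (BC.Tree.test c yes no) M =
      1 + if M c = 0 then gsteps x yes M else gsteps x no M := rfl
    have hgr : (BC.Tree.test c yes no).grun x M =
      if M c = 0 then yes.grun x M else no.grun x M := rfl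
    by_cases h : M c = 0
    · rw [if_pos h] at hgt hgr
      have h4 : ∀ z, ev z M c = 0 := by
        intro z
        unfold ev
        rw [h, eval_zero, Int.cast_zero]
      have h5 := ihy hy M g n S hn2 hg1 hval hreg (by omega) (by rw [← hgr]; exact hg) (by
        intro z hz
        obtain ⟨h1, h2⟩ := hS z hz
        rw [run_pos (h4 z)] at h1
        refine ⟨h1, fun h3 => h2 ?_⟩
        show if ev z M c = 0 then _ else _
        rw [if_pos (h4 z)]
        exact h3)
      rw [hgt]
      exact h5.trans (Nat.mul_le_mul_left _ (by omega))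
    · rw [if_neg h] at hgt hgr
      have h5 := ihn hn M g n (S.filter fun z => ¬ (M c).eval z = 0) hn2 hg1
        (fun k hk => (hval k hk).mono (Finset.filter_subset _ _)) hreg (by omega)
        (by rw [← hgr]; exact hg) (by
        intro z hz
        rw [Finset.mem_filter] at hz
        obtain ⟨h1, h2⟩ := hS z hz.1
        have h4 : ev z M c ≠ 0 := by
          unfold ev
          exact_mod_cast hz.2
        rw [run_neg h4] at h1
        refine ⟨h1, fun h3 => h2 ?_⟩
        show if ev z M c = 0 then _ else _
        rw [if_neg h4]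
        exact h3)
      have h6 : (S.filter fun z => (M c).eval z = 0).card ≤ Bd := by
        obtain ⟨kc, hkc, hMc⟩ := hreg c
        have hlow : ∀ i, i < n → (fun j => if j < n then g j else M c) i = g i :=
          fun i hi => if_pos hi
        refine hBd (fun j => if j < n then g j else M c) _ (fun k hk => ?_) ?_ ?_
        · by_cases hkn : k < n
          · exact ((hval k hkn).mono (Finset.filter_subset _ _)).congr
              (fun i hi => hlow i (by omega))
          · refine Or.inr (Or.inr (Or.inr (Or.inr ⟨kc, by omega, C 1 * X, ?_⟩)))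
            obtain ⟨h1, h2, h3⟩ := monomial_facts b 1 (Or.inl rfl)
            refine ⟨h1, h2, h3, ?_⟩
            simp only [if_neg hkn, if_pos hkc]
            rw [hMc, C_1, one_mul, X_comp]
        · simp only [if_neg (show ¬ T + 2 < n by omega)]
          exact h
        · intro z hz
          simp only [if_neg (show ¬ T + 2 < n by omega)]
          exact (Finset.mem_filter.mp hz).2
      have h7 := Finset.card_filter_add_card_filter_not (s := S) (fun z => (M c).eval z = 0)
      rw [hgt, mul_add, mul_one]
      omega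

end Pool.Agent.TH835.BSS
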